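import Mathlib
import Pool.Agent.Helper29.HC.Pert
import Pool.Agent.Helper29.TH8.Indep
import Pool.Agent.Helper29.TH8.FirstOrd

/-!
# Reduction of the disproof (MP_8c7236_co, S10026) to one shape with coincident points

If the frozen inequality holds for all configurations then `Wt c y ≥ 1` for every shape `y` with the classes `c` (`pert`): spread every class along a line.
-/

set_option autoImplicit false

namespace Pool.Agent.Helper29.DP

open Finset Filter Topology Pool.Agent.Helper29.TH8 Pool.Agent.Helper29.HC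

/-- The frozen statement for one number of points. -/
def Frz (n : ℕ) : Prop :=
  ∀ (x : Fin n → Fin 3 → ℝ), Function.Injective x →
    ∀ (a b : Fin n → Fin n → ℂ),
      (∀ i j : Fin n, i ≠ j →
        (![2 * (a i j * (starRingEnd ℂ) (b i j)).re,
           2 * (a i j * (starRingEnd ℂ) (b i j)).im,
           Complex.normSq (a i j) - Complex.normSq (b i j)] : Fin 3 → ℝ) =
        (fun c : Fin 3 => (x j c - x i c) / Real.sqrt (∑ d : Fin 3, (x j d - x i d) ^ 2))) →
      (∀ i j : Fin n, i < j →
        a j i = -((starRingEnd ℂ) (b i j)) ∧ b j i = (starRingEnd ℂ) (a i j)) →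
      1 ≤ ‖(Matrix.of (fun (i k : Fin n) =>
            (∏ j ∈ Finset.univ.erase i,
              (Polynomial.C (a i j) * Polynomial.X + Polynomial.C (b i j))).coeff (k : ℕ))).det‖

theorem frz_DX {n : ℕ} (H : Frz n) (x : Fin n → Fin 3 → ℝ) (hx : Function.Injective x) :
    1 ≤ DX n x := by
  let F : Fin n → Fin n → ℂ × ℂ := fun i j => if i < j then lx x i j else opp (lx x j i)
  have hsp : ∀ i j, i ≠ j → IsSp (fun d => (x j d - x i d) / nn (fun d => x j d - x i d)) (F i j) := by
    intro i j hij
    have hne : ∀ i j : Fin n, i ≠ j → nn (fun d => x j d - x i d) ≠ 0 := by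
      intro i j hij
      apply (nn_pos _ _).ne'
      intro h0
      apply hij
      apply hx
      funext d
      have := congrFun h0 d
      simp only [Pi.zero_apply] at this
      linarith
    by_cases h : i < j
    · have e : F i j = lx x i j := if_pos h
      rw [e]
      exact lf_sp _ (hne i j hij)
    · have e : F i j = opp (lx x j i) := if_neg h
      rw [e]
      have h1 := sp_opp _ _ (lf_sp (fun d => x i d - x j d) (hne j i hij.symm))
      have e2 : nn (fun d => x j d - x i d) = nn (fun d => x i d - x j d) := by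
        have := nn_smul (-1) (fun d => x i d - x j d)
        rw [abs_neg, abs_one, one_mul] at this
        rw [← this]
        congr 1
        funext d
        ring
      have e3 : (fun d => (x j d - x i d) / nn (fun d => x j d - x i d)) =
          fun d => -((x i d - x j d) / nn (fun d => x i d - x j d)) := by
        funext d
        rw [e2, ← neg_div, neg_sub]
      rw [e3]
      exact h1
  have h1 : ∀ i j : Fin n, i ≠ j →
        (![2 * ((F i j).1 * (starRingEnd ℂ) (F i j).2).re,
           2 * ((F i j).1 * (starRingEnd ℂ) (F i j).2).im,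
           Complex.normSq (F i j).1 - Complex.normSq (F i j).2] : Fin 3 → ℝ) =
        (fun c : Fin 3 => (x j c - x i c) / Real.sqrt (∑ d : Fin 3, (x j d - x i d) ^ 2)) := by
    intro i j hij
    obtain ⟨p1, p2, -⟩ := hsp i j hij
    have hre := congrArg Complex.re p1
    have him := congrArg Complex.im p1
    have e0 : (2 * ((F i j).1 * (starRingEnd ℂ) (F i j).2)).re =
        2 * ((F i j).1 * (starRingEnd ℂ) (F i j).2).re := by simp
    have e1 : (2 * ((F i j).1 * (starRingEnd ℂ) (F i j).2)).im =
        2 * ((F i j).1 * (starRingEnd ℂ) (F i j).2).im := by simp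
    funext d
    fin_cases d
    · simpa [e0, ze, nn] using hre
    · simpa [e1, ze, nn] using him
    · simpa [nn] using p2
  have h2 : ∀ i j : Fin n, i < j →
      (F j i).1 = -((starRingEnd ℂ) (F i j).2) ∧ (F j i).2 = (starRingEnd ℂ) (F i j).1 := by
    intro i j hij
    have e1 : F i j = lx x i j := if_pos hij
    have e2 : F j i = opp (lx x i j) := if_neg (not_lt.2 hij.le)
    rw [e1, e2]
    exact ⟨rfl, rfl⟩
  have h3 := H x hx (fun i j => (F i j).1) (fun i j => (F i j).2) h1 h2
  rwa [DX_hopf n x hx (fun i j => (F i j).1) (fun i j => (F i j).2) h1] at h3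

/-- The inequality for distinct points gives the inequality for shapes with classes. -/
theorem frz_Wt {n : ℕ} (H : Frz n) {c : Fin n → ℕ} (hc : Lab c) (y : Fin n → Fin 3 → ℝ)
    (hcls : ∀ i j, c i = c j ↔ y i = y j) : 1 ≤ Wt c y := by
  have hτ1 : ∀ _ : Fin n, ip e3 e3 = 1 := by
    intro _
    simp [ip, e3, Fin.sum_univ_three]
  obtain ⟨t0, ht0, hinj⟩ := XP_inj y (fun _ => e3) hcls (fun _ _ _ => rfl) hτ1
  have hpos : ∀ v : ℕ, 0 < t0 / ((v : ℝ) + 1) := fun v => by positivity
  have hle : ∀ v : ℕ, t0 / ((v : ℝ) + 1) ≤ t0 := fun v => by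
    apply div_le_self ht0.le
    have : (0 : ℝ) ≤ v := Nat.cast_nonneg v
    linarith
  have hlim : Tendsto (fun v : ℕ => t0 / ((v : ℝ) + 1)) (Filter.hyperfilter ℕ : Filter ℕ) (𝓝 0) := by
    have h1 : Tendsto (fun v : ℕ => t0 / ((v : ℝ) + 1)) atTop (𝓝 0) := by
      have h2 := (tendsto_one_div_add_atTop_nhds_zero_nat (𝕜 := ℝ)).const_mul t0
      rw [mul_zero] at h2
      exact h2.congr fun v => by rw [mul_one_div]
    exact h1.mono_left (by rw [← Nat.cofinite_eq_atTop]; exact Filter.hyperfilter_le_cofinite)
  have h := pert hc y (fun _ => e3) hcls (fun _ _ _ => rfl) hτ1 (Filter.hyperfilter ℕ)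
    (fun v => t0 / ((v : ℝ) + 1)) hpos hlim (fun v => hinj _ (hpos v) (hle v))
  exact ge_of_tendsto' h fun v => frz_DX H _ (hinj _ (hpos v) (hle v))

/-- The reduction in the literal form of the frozen statement S10026. -/
theorem red {n : ℕ} {c : Fin n → ℕ} (hc : Lab c) (y : Fin n → Fin 3 → ℝ)
    (hcls : ∀ i j, c i = c j ↔ y i = y j) (hW : Wt c y < 1) :
    ¬ (∀ (n : ℕ) (x : Fin n → Fin 3 → ℝ), Function.Injective x →
    ∀ (a b : Fin n → Fin n → ℂ),
      (∀ i j : Fin n, i ≠ j →
        (![2 * (a i j * (starRingEnd ℂ) (b i j)).re,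
           2 * (a i j * (starRingEnd ℂ) (b i j)).im,
           Complex.normSq (a i j) - Complex.normSq (b i j)] : Fin 3 → ℝ) =
        (fun c : Fin 3 => (x j c - x i c) / Real.sqrt (∑ d : Fin 3, (x j d - x i d) ^ 2))) →
      (∀ i j : Fin n, i < j →
        a j i = -((starRingEnd ℂ) (b i j)) ∧ b j i = (starRingEnd ℂ) (a i j)) →
      1 ≤ ‖(Matrix.of (fun (i k : Fin n) =>
            (∏ j ∈ Finset.univ.erase i,
              (Polynomial.C (a i j) * Polynomial.X + Polynomial.C (b i j))).coeff (k : ℕ))).det‖) :=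
  fun H => absurd (frz_Wt (H n) hc y hcls) (not_le.2 hW)

end Pool.Agent.Helper29.DP
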